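import Pool.Agent.Helper49.UV.Cell

/-!
# UV: block Z3 (`chain`), from Z1 and the trivial count Z2
-/

set_option autoImplicit false
open MeasureTheory Set Filter Topology Metric
open Pool.Agent.Helper57.Zeta Pool.Agent.Helper57.LH Pool.Agent.Helper57.ED Pool.Agent.Helper54.LG

namespace Pool.Agent.Helper49.UV

open Pool.Agent.Helper69.UV
open Pool.Agent.Helper69.UG (pt)

lemma cen_nonneg (δ T c y : ℝ) (k : ℕ) (t : ℝ) : 0 ≤ cen δ T c y k t := norm_nonneg _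

lemma circ_nonneg (δ T c y : ℝ) (k : ℕ) (t : ℝ) : 0 ≤ circ δ T c y k t := by
  rw [circ_eq]
  exact Real.circleAverage_nonneg_of_nonneg (fun _ _ => norm_nonneg _)

lemma GY_nonneg (δ T c y : ℝ) (K : ℕ) (t : ℝ) : 0 ≤ GY δ T c y K t := by
  unfold GY
  have h1 := circ_nonneg δ T c y 0 t
  have h2 := cen_nonneg δ T c y 0 t
  have h3 : 0 ≤ ∑ k ∈ Finset.Ico 1 K, 15 * 2 ^ k * (circ δ T c y k t + 2 * cen δ T c y k t) * (2 * cen δ T c y (k - 1) t) := by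
    refine Finset.sum_nonneg fun k _ => ?_
    have h1 := circ_nonneg δ T c y k t
    have h2 := cen_nonneg δ T c y k t
    have h3 := cen_nonneg δ T c y (k - 1) t
    exact mul_nonneg (mul_nonneg (by positivity) (by linarith)) (by linarith)
  exact add_nonneg (mul_nonneg (by norm_num) (by linarith)) h3

lemma GY_succ (δ T c y : ℝ) {K : ℕ} (hK : 1 ≤ K) (t : ℝ) : GY δ T c y (K + 1) t =
    GY δ T c y K t + 15 * 2 ^ K * (circ δ T c y K t + 2 * cen δ T c y K t) * (2 * cen δ T c y (K - 1) t) := by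
  unfold GY
  rw [Finset.sum_Ico_succ_top hK]
  ring

theorem chain_aux {δ : ℝ} (hδ : 0 < δ) (hδ1 : δ ≤ 1 / 32) {T : ℝ} (hT : 3 ≤ T) {c y : ℝ} (hy : 0 < y) (K : ℕ) (hK : 1 ≤ K) (hKy : 4 * 2 ^ K * y ≤ δ * Real.log T / 8)
    (t : ℝ) (Z : Finset ZS)
    (hZ : ∀ ρ ∈ Z, y ≤ Real.log T * ((ρ : ℂ).re - 1 / 2) ∧ Real.log T * ((ρ : ℂ).re - 1 / 2) ≤ 2 * y ∧
      |(ρ : ℂ).im - t| ≤ y / Real.log T) :
    ∑ ρ ∈ Z, mx ρ ≤ GY δ T c y K t + (∑ ρ ∈ Z, mx ρ) * (2 * cen δ T c y (K - 1) t) := by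
  have hS : 0 ≤ ∑ ρ ∈ Z, mx (ρ : ℂ) := Finset.sum_nonneg fun _ _ => Nat.cast_nonneg _
  induction K, hK using Nat.le_induction with
  | base =>
    by_cases hc : cen δ T c y 0 t ≤ 1 / 2
    · have h1 := cell hδ hδ1 hT hy 0 (by norm_num at hKy ⊢; linarith) t Z hZ hc
      have h2 : GY δ T c y 1 t = 15 * (circ δ T c y 0 t + 2 * cen δ T c y 0 t) := by
        unfold GY
        simp
      rw [h2]
      have h3 : 0 ≤ (∑ ρ ∈ Z, mx (ρ : ℂ)) * (2 * cen δ T c y (1 - 1) t) := by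
        have := cen_nonneg δ T c y (1 - 1) t
        positivity
      norm_num at h1
      linarith
    · push Not at hc
      have h1 := GY_nonneg δ T c y 1 t
      have h2 : 1 ≤ 2 * cen δ T c y (1 - 1) t := by
        simp only [Nat.sub_self]
        linarith
      nlinarith
  | succ K hK ih =>
    have hKy' : 4 * 2 ^ K * y ≤ δ * Real.log T / 8 := by
      rw [pow_succ] at hKy
      have : 0 < 4 * 2 ^ K * y := by positivity
      linarith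
    have h0 := ih hKy'
    rw [Nat.add_sub_cancel]
    by_cases hc : cen δ T c y K t ≤ 1 / 2
    · have h1 := cell hδ hδ1 hT hy K (by rw [pow_succ] at hKy; linarith) t Z hZ hc
      rw [GY_succ δ T c y hK]
      have h2 : (∑ ρ ∈ Z, mx (ρ : ℂ)) * (2 * cen δ T c y (K - 1) t) ≤
          15 * 2 ^ K * (circ δ T c y K t + 2 * cen δ T c y K t) * (2 * cen δ T c y (K - 1) t) :=
        mul_le_mul_of_nonneg_right h1 (by have := cen_nonneg δ T c y (K - 1) t; positivity)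
      have h3 : 0 ≤ (∑ ρ ∈ Z, mx (ρ : ℂ)) * (2 * cen δ T c y K t) := by
        have := cen_nonneg δ T c y K t
        positivity
      linarith
    · push Not at hc
      have h1 := GY_nonneg δ T c y (K + 1) t
      have h2 : 1 ≤ 2 * cen δ T c y K t := by linarith
      nlinarith

/-- Z3, from Z2 -/
theorem chain_of (triv : ∃ C : ℝ, 0 < C ∧ ∀ (t : ℝ) (Z : Finset ZS), (∀ ρ ∈ Z, |(ρ : ℂ).im - t| ≤ 1) →
    ∑ ρ ∈ Z, mx ρ ≤ C * Real.log (4 + |t|)) :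
    ∃ C : ℝ, 0 < C ∧ ∀ δ : ℝ, 0 < δ → δ ≤ 1 / 32 → ∀ T : ℝ, 3 ≤ T → ∀ c y : ℝ, 0 < y → ∀ K : ℕ, 1 ≤ K → 4 * 2 ^ K * y ≤ δ * Real.log T / 8 →
    ∀ (t : ℝ) (Z : Finset ZS),
    (∀ ρ ∈ Z, y ≤ Real.log T * ((ρ : ℂ).re - 1 / 2) ∧ Real.log T * ((ρ : ℂ).re - 1 / 2) ≤ 2 * y ∧
      |(ρ : ℂ).im - t| ≤ y / Real.log T) →
    ∑ ρ ∈ Z, mx ρ ≤ GY δ T c y K t + C * Real.log (4 + |t|) * (2 * cen δ T c y (K - 1) t) := by
  obtain ⟨C, hC, h⟩ := triv
  refine ⟨C, hC, fun δ hδ hδ1 T hT c y hy K hK hKy t Z hZ => ?_⟩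
  have hL : 0 < Real.log T := Real.log_pos (by linarith)
  have h1 := chain_aux hδ hδ1 hT (c := c) hy K hK hKy t Z hZ
  have h2 := h t Z (fun ρ hρ => by
    refine (hZ ρ hρ).2.2.trans ?_
    rw [div_le_one hL]
    have : (1:ℝ) ≤ 2 ^ K := one_le_pow₀ (by norm_num)
    have hKy4 := le_quarter hδ1 hT hKy
    nlinarith)
  have h3 : (∑ ρ ∈ Z, mx (ρ : ℂ)) * (2 * cen δ T c y (K - 1) t) ≤ C * Real.log (4 + |t|) * (2 * cen δ T c y (K - 1) t) :=
    mul_le_mul_of_nonneg_right h2 (by have := cen_nonneg δ T c y (K - 1) t; positivity)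
  linarith

end Pool.Agent.Helper49.UV
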