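import Pool.Agent.Helper49.UV.MGY
import Pool.Agent.Helper49.UG.MLast

/-!
# UV: block Z5 (`mLast`), from M5 and R7
-/

set_option autoImplicit false
open MeasureTheory Set Filter Topology Metric
open Pool.Agent.Helper57.Zeta Pool.Agent.Helper57.LH Pool.Agent.Helper57.ED Pool.Agent.Helper54.LG
open Pool.Agent.Helper69.UV
open Pool.Agent.Helper69.UG (pt)
open Pool.Agent.Helper49.UG (M2 log_pt prof prof_int prof_nonneg PW_pt)

namespace Pool.Agent.Helper49.UV

/-- statement of R7 -/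
def M4S (δ : ℝ) : Prop := ∃ A c0 T0 : ℝ, ∀ T, T0 ≤ T → ∀ c, Adm δ c0 T c → ∀ v : ℝ, v ^ 2 = (1 - 4 * δ) * c → ∀ τ : ℝ,
    Integrable (fun t => PW (WW δ T) (t - τ) * ‖RR δ T c v t‖ ^ 4) ∧
    ∫ t, PW (WW δ T) (t - τ) * ‖RR δ T c v t‖ ^ 4 ≤ Real.exp (A * c) * VV δ T c v ^ 2

lemma WW_le {δ T : ℝ} (hδ : 0 < δ) (hT : 1 ≤ T) : WW δ T ≤ T := by
  unfold WW
  calc T ^ (1 - δ / 4096) ≤ T ^ (1 : ℝ) := Real.rpow_le_rpow_of_exponent_le hT (by linarith)
    _ = T := Real.rpow_one T

/-- fourth moment of the logarithm -/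
lemma log_M2 : ∃ C : ℝ, 0 < C ∧ ∀ δ T u τ : ℝ, 0 < δ → 3 ≤ T → |u| ≤ T → |τ| ≤ 2 * T →
    M2 (fun t => PW (WW δ T) (t - τ)) (fun t => Real.log (4 + |t + u|) ^ 2) (C * Real.log T ^ 2) := by
  obtain ⟨I, hI⟩ : ∃ I, I = ∫ v, prof v := ⟨_, rfl⟩
  have hI0 : 0 ≤ I := by
    rw [hI]
    exact integral_nonneg prof_nonneg
  refine ⟨14641 * (1 + I), by positivity, fun δ T u τ hδ hT hu hτ => ?_⟩
  have hT0 : 0 < T := by linarith
  have hW : 0 < WW δ T := Real.rpow_pos_of_pos hT0 _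
  have hWT : WW δ T ≤ T := WW_le hδ (by linarith)
  have hL : 1 ≤ Real.log T := by
    rw [Real.le_log_iff_exp_le (by linarith)]
    have := Real.exp_one_lt_d9
    linarith
  have hc : Continuous (fun t => Real.log (4 + |t + u|) ^ 2) := by
    apply Continuous.pow
    apply Continuous.log (by fun_prop)
    intro t
    have := abs_nonneg (t + u)
    linarith
  have hPc : Continuous (fun t => PW (WW δ T) (t - τ)) := by
    unfold PW
    have hpi := Real.pi_pos
    apply Continuous.div continuous_const (by fun_prop)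
    intro t
    positivity
  have hmaj0 : Integrable (fun x : ℝ => (WW δ T)⁻¹ * prof (x * (WW δ T)⁻¹)) :=
    (prof_int.comp_mul_right' (inv_ne_zero hW.ne')).const_mul _
  have hmaj : Integrable (fun t : ℝ => 14641 * Real.log T ^ 4 * ((WW δ T)⁻¹ * prof ((t - τ) * (WW δ T)⁻¹))) :=
    (hmaj0.comp_sub_right τ).const_mul _
  have hpt : ∀ t, PW (WW δ T) (t - τ) * (Real.log (4 + |t + u|) ^ 2) ^ 2 ≤
      14641 * Real.log T ^ 4 * ((WW δ T)⁻¹ * prof ((t - τ) * (WW δ T)⁻¹)) := by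
    intro t
    have h1 := log_pt (t := t) hT hu hτ
    have h2 := PW_pt (x := t - τ) hW hWT
    have h3 := (PW_pos hW (t - τ)).le
    calc PW (WW δ T) (t - τ) * (Real.log (4 + |t + u|) ^ 2) ^ 2 = PW (WW δ T) (t - τ) * Real.log (4 + |t + u|) ^ 4 := by ring
      _ ≤ PW (WW δ T) (t - τ) * (14641 * Real.log T ^ 4 * (1 + |t - τ| / T) ^ (1 / 2 : ℝ)) := mul_le_mul_of_nonneg_left h1 h3
      _ = 14641 * Real.log T ^ 4 * (PW (WW δ T) (t - τ) * (1 + |t - τ| / T) ^ (1 / 2 : ℝ)) := by ring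
      _ ≤ _ := mul_le_mul_of_nonneg_left h2 (by positivity)
  have hint : Integrable (fun t => PW (WW δ T) (t - τ) * (Real.log (4 + |t + u|) ^ 2) ^ 2) := by
    refine hmaj.mono' (hPc.mul (hc.pow 2)).aestronglyMeasurable (Eventually.of_forall fun t => ?_)
    rw [Real.norm_of_nonneg (mul_nonneg (PW_pos hW _).le (sq_nonneg _))]
    exact hpt t
  refine ⟨hc, fun t => sq_nonneg _, hint, ?_⟩
  calc ∫ t, PW (WW δ T) (t - τ) * (Real.log (4 + |t + u|) ^ 2) ^ 2 ≤
      ∫ t, 14641 * Real.log T ^ 4 * ((WW δ T)⁻¹ * prof ((t - τ) * (WW δ T)⁻¹)) := integral_mono hint hmaj hpt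
    _ = 14641 * Real.log T ^ 4 * I := by
        rw [integral_const_mul]
        congr 1
        rw [integral_sub_right_eq_self (fun x : ℝ => (WW δ T)⁻¹ * prof (x * (WW δ T)⁻¹)) τ, integral_const_mul,
          Measure.integral_comp_mul_right prof, inv_inv, abs_of_pos hW, smul_eq_mul, ← mul_assoc, inv_mul_cancel₀ hW.ne',
          one_mul, hI]
    _ ≤ (14641 * (1 + I) * Real.log T ^ 2) ^ 2 := by
        have h1 : (14641 * (1 + I) * Real.log T ^ 2) ^ 2 = 14641 * Real.log T ^ 4 * (14641 * (1 + I) ^ 2) := by ring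
        rw [h1]
        apply mul_le_mul_of_nonneg_left _ (by positivity)
        nlinarith

/-- Z5 -/
theorem mLast_of {δ : ℝ} (hδ : 0 < δ) (hδ1 : δ ≤ 1 / 32) (hfm : FmS δ) (hm4 : M4S δ) : ∃ c0 T0 : ℝ, ∀ T, T0 ≤ T → ∀ c, Adm δ c0 T c → ∀ v : ℝ, v ^ 2 = (1 - 4 * δ) * c →
    ∀ τ u y : ℝ, |τ| ≤ 2 * T → |u| ≤ T → 2 ≤ y → ∀ K : ℕ, 1 ≤ K → 4 * 2 ^ K * y ≤ δ * Real.log T / 8 →
    δ * Real.log T / 8 < 8 * 2 ^ K * y →
    Integrable (fun t => wt δ T c v τ t * (Real.log (4 + |t + u|) * cen δ T c y (K - 1) (t + u))) ∧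
    ∫ t, wt δ T c v τ t * (Real.log (4 + |t + u|) * cen δ T c y (K - 1) (t + u)) ≤ T ^ (-(δ ^ 2 / 2000)) * VV δ T c v := by
  obtain ⟨C, c1, T1, hC, h1⟩ := hfm
  obtain ⟨A, c2, T2, h2⟩ := hm4
  obtain ⟨C2, hC2, h3⟩ := log_M2
  -- the size of T
  obtain ⟨D, hD⟩ : ∃ D, D = |A| / 4 + C / 2 := ⟨_, rfl⟩
  have hD0 : 0 < D := by rw [hD]; positivity
  have hev : ∀ᶠ T : ℝ in atTop, 125 * D ≤ Real.log (Real.log T) ∧
      √(C2 * C) * Real.log T ≤ T ^ (δ ^ 2 / 8000) := by
    have e1 : Tendsto (fun T : ℝ => Real.log (Real.log T)) atTop atTop :=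
      Real.tendsto_log_atTop.comp Real.tendsto_log_atTop
    have e2 : (fun T : ℝ => √(C2 * C) * Real.log T) =o[atTop] fun T : ℝ => T ^ (δ ^ 2 / 8000) :=
      (isLittleO_log_rpow_atTop (by positivity)).const_mul_left _
    have e3 := e2.bound (show (0:ℝ) < 1 by norm_num)
    filter_upwards [e1.eventually_ge_atTop (125 * D), e3, eventually_gt_atTop (0:ℝ)] with T a1 a2 a3
    refine ⟨a1, ?_⟩
    rw [one_mul, Real.norm_eq_abs, Real.norm_of_nonneg (Real.rpow_nonneg a3.le _)] at a2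
    exact (le_abs_self _).trans a2
  obtain ⟨T3, hT3⟩ := eventually_atTop.1 hev
  refine ⟨max (max c1 c2) 1, max (max T1 T2) (max T3 3), ?_⟩
  intro T hT c hc v hv τ u y hτ hu hy K hK hKy hKy2
  have g1 : T1 ≤ T := (le_max_left _ _).trans ((le_max_left _ _).trans hT)
  have g2 : T2 ≤ T := (le_max_right _ _).trans ((le_max_left _ _).trans hT)
  have g3 : T3 ≤ T := (le_max_left _ _).trans ((le_max_right _ _).trans hT)
  have g4 : 3 ≤ T := (le_max_right _ _).trans ((le_max_right _ _).trans hT)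
  have hT0 : 0 < T := by linarith
  have hL : 0 < Real.log T := Real.log_pos (by linarith)
  have hc1 : 1 ≤ c := (le_max_right _ _).trans hc.1
  have hV := one_le_VV (T := T) (c := c) (v := v) hδ1 (by linarith)
  have hfm := h1 T g1 c (adm_mono ((le_max_left _ _).trans (le_max_left _ _)) hc) v hv τ
  have hm := h2 T g2 c (adm_mono ((le_max_right _ _).trans (le_max_left _ _)) hc) v hv τ
  have hl := h3 δ T u τ hδ g4 hu hτ
  obtain ⟨q1, q2⟩ := hT3 T g3
  have hw := wt_cont (δ := δ) (T := T) (c := c) (v := v) (τ := τ) hT0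
  have hw0 := wt_nonneg (δ := δ) (T := T) (c := c) (v := v) (τ := τ) hT0
  have hW : 0 < WW δ T := Real.rpow_pos_of_pos hT0 _
  have hPc : Continuous (fun t => PW (WW δ T) (t - τ)) := by
    unfold PW
    have hpi := Real.pi_pos
    apply Continuous.div continuous_const (by fun_prop)
    intro t
    positivity
  have hRc : Continuous (fun t => ‖RR δ T c v t‖ ^ 2) := by
    apply Continuous.pow
    apply Continuous.norm
    unfold RR
    refine continuous_finsetSum _ fun n hn => ?_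
    apply continuous_const.mul
    apply Continuous.const_cpow (by fun_prop)
    left
    have : 1 ≤ n := (Finset.mem_Icc.mp hn).1
    have : n ≠ 0 := by omega
    exact_mod_cast this
  -- resonator
  have hR : M2 (fun t => PW (WW δ T) (t - τ)) (fun t => ‖RR δ T c v t‖ ^ 2) (Real.exp (|A| * c / 2) * VV δ T c v) := by
    have e : ∀ t, PW (WW δ T) (t - τ) * (‖RR δ T c v t‖ ^ 2) ^ 2 = PW (WW δ T) (t - τ) * ‖RR δ T c v t‖ ^ 4 := fun t => by ring
    refine ⟨hRc, fun t => sq_nonneg _, ?_, ?_⟩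
    · simp_rw [e]
      exact hm.1
    · simp_rw [e]
      refine hm.2.trans ?_
      rw [mul_pow, ← Real.exp_nat_mul]
      apply mul_le_mul_of_nonneg_right _ (sq_nonneg _)
      rw [Real.exp_le_exp]
      have := mul_le_mul_of_nonneg_right (le_abs_self A) (show 0 ≤ c by linarith)
      push_cast
      linarith
  have hRl := hR.mul hPc (fun t => (PW_pos hW _).le) hl (by positivity) (by positivity)
  obtain ⟨B, hB⟩ : ∃ B, B = √(Real.exp (|A| * c / 2) * VV δ T c v * (C2 * Real.log T ^ 2)) := ⟨_, rfl⟩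
  have hB0 : 0 < B := by rw [hB]; positivity
  have hB2 : B ^ 2 = Real.exp (|A| * c / 2) * VV δ T c v * (C2 * Real.log T ^ 2) := by
    rw [hB, Real.sq_sqrt (by positivity)]
  have hlog : M2 (wt δ T c v τ) (fun t => Real.log (4 + |t + u|)) B := by
    have e : ∀ t, wt δ T c v τ t * Real.log (4 + |t + u|) ^ 2 =
        PW (WW δ T) (t - τ) * (‖RR δ T c v t‖ ^ 2 * Real.log (4 + |t + u|) ^ 2) := fun t => by unfold wt; ring
    refine ⟨?_, fun t => Real.log_nonneg (by linarith [abs_nonneg (t + u)]), ?_, ?_⟩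
    · apply Continuous.log (by fun_prop)
      intro t
      have := abs_nonneg (t + u)
      linarith
    · simp_rw [e]
      exact hRl.1
    · simp_rw [e]
      rw [hB2]
      exact hRl.2
  -- the centre
  have hpow : (2:ℝ) ^ K = 2 * 2 ^ (K - 1) := by
    rw [← pow_succ']
    congr 1
    omega
  have hp1 : (1:ℝ) ≤ 2 ^ (K - 1) := one_le_pow₀ (by norm_num)
  have hcen : M2 (wt δ T c v τ) (fun t => cen δ T c y (K - 1) (t + u)) (amp δ C T c v (4 * 2 ^ (K - 1) * y)) :=
    D_M2 hδ1 hC g4 (by rw [hpow] at hKy; nlinarith) (hfm u _ hτ (by linarith) (by nlinarith) (by rw [hpow] at hKy; nlinarith))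
  have hfin := hlog.mul hw hw0 hcen hB0 (amp_pos hδ1 _ hC (by linarith))
  refine ⟨hfin.1, hfin.2.trans ?_⟩
  -- the numbers
  have hloglog : 0 < Real.log (Real.log T) := lt_of_lt_of_le (by positivity) q1
  have hcL : D * c ≤ δ ^ 2 * Real.log T / 8000 := by
    have h4 := hc.2
    have h5 : c * (125 * D) ≤ c * Real.log (Real.log T) := mul_le_mul_of_nonneg_left q1 (by linarith only [hc1])
    have h6 : D * c * 8000 = 64 * (c * (125 * D)) := by ring
    rw [le_div_iff₀ (by norm_num), h6]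
    exact (mul_le_mul_of_nonneg_left h5 (by norm_num)).trans h4
  have hsc : √c ≤ c := by
    rw [Real.sqrt_le_left (by linarith only [hc1])]
    nlinarith only [hc1]
  have hamp : amp δ C T c v (4 * 2 ^ (K - 1) * y) ≤ √(C * Real.exp (C * √c) * VV δ T c v) * Real.exp (-(δ ^ 2 * Real.log T / 1024)) := by
    unfold amp
    apply mul_le_mul_of_nonneg_left _ (Real.sqrt_nonneg _)
    rw [Real.exp_le_exp]
    rw [hpow] at hKy2
    have h6 : δ * (δ * Real.log T / 32) ≤ δ * (4 * 2 ^ (K - 1) * y) :=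
      mul_le_mul_of_nonneg_left (by linarith only [hKy2]) hδ.le
    have h7 : δ * (δ * Real.log T / 32) = δ ^ 2 * Real.log T / 32 := by ring
    linarith only [h6, h7]
  have hprod : B * √(C * Real.exp (C * √c) * VV δ T c v) = √(C2 * C) * Real.log T * VV δ T c v * Real.exp (|A| * c / 4 + C * √c / 2) := by
    rw [hB, ← Real.sqrt_mul (by positivity)]
    have e1 : Real.exp (|A| * c / 2) * VV δ T c v * (C2 * Real.log T ^ 2) * (C * Real.exp (C * √c) * VV δ T c v) =
        (C2 * C) * (Real.log T * VV δ T c v * Real.exp (|A| * c / 4 + C * √c / 2)) ^ 2 := by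
      rw [mul_pow (Real.log T * VV δ T c v), ← Real.exp_nat_mul]
      have e2 : Real.exp ((2 : ℕ) * (|A| * c / 4 + C * √c / 2)) = Real.exp (|A| * c / 2) * Real.exp (C * √c) := by
        rw [← Real.exp_add]
        congr 1
        push_cast
        ring
      rw [e2]
      ring
    rw [e1, Real.sqrt_mul (by positivity), Real.sqrt_sq (by positivity)]
    ring
  have hexp : Real.exp (|A| * c / 4 + C * √c / 2) ≤ Real.exp (δ ^ 2 * Real.log T / 8000) := by
    rw [Real.exp_le_exp]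
    have h4 : C * √c / 2 ≤ C * c / 2 := by
      have := mul_le_mul_of_nonneg_left hsc hC.le
      linarith
    have h5 : |A| * c / 4 + C * c / 2 = D * c := by rw [hD]; ring
    linarith
  have hrp : ∀ a : ℝ, Real.exp (a * Real.log T) = T ^ a := fun a => by
    rw [Real.rpow_def_of_pos hT0, mul_comm]
  calc B * amp δ C T c v (4 * 2 ^ (K - 1) * y) ≤ B * (√(C * Real.exp (C * √c) * VV δ T c v) * Real.exp (-(δ ^ 2 * Real.log T / 1024))) :=
        mul_le_mul_of_nonneg_left hamp hB0.le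
    _ = (√(C2 * C) * Real.log T) * VV δ T c v * Real.exp (|A| * c / 4 + C * √c / 2) * Real.exp (-(δ ^ 2 * Real.log T / 1024)) := by
        rw [← mul_assoc, hprod]
    _ ≤ T ^ (δ ^ 2 / 8000) * VV δ T c v * Real.exp (δ ^ 2 * Real.log T / 8000) * Real.exp (-(δ ^ 2 * Real.log T / 1024)) := by
        apply mul_le_mul_of_nonneg_right _ (Real.exp_pos _).le
        apply mul_le_mul _ hexp (Real.exp_pos _).le (by positivity)
        exact mul_le_mul_of_nonneg_right q2 (by linarith)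
    _ = T ^ (δ ^ 2 / 8000 + δ ^ 2 / 8000 - δ ^ 2 / 1024) * VV δ T c v := by
        have e3 : Real.exp (δ ^ 2 * Real.log T / 8000) = T ^ (δ ^ 2 / 8000) := by
          rw [← hrp]
          congr 1
          ring
        have e4 : Real.exp (-(δ ^ 2 * Real.log T / 1024)) = T ^ (-(δ ^ 2 / 1024)) := by
          rw [← hrp]
          congr 1
          ring
        rw [e3, e4, sub_eq_add_neg, Real.rpow_add hT0, Real.rpow_add hT0]
        ring
    _ ≤ T ^ (-(δ ^ 2 / 2000)) * VV δ T c v := by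
        apply mul_le_mul_of_nonneg_right _ (by linarith)
        apply Real.rpow_le_rpow_of_exponent_le (by linarith)
        have : 0 ≤ δ ^ 2 := sq_nonneg δ
        linarith

end Pool.Agent.Helper49.UV
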