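import Pool.Agent.Helper69.UV.Defs
import Pool.Agent.Helper49.UG.Cell

/-!
# UV: blocks Z1 (`cell`)
-/

set_option autoImplicit false
open MeasureTheory Set Filter Topology Metric
open Pool.Agent.Helper57.Zeta Pool.Agent.Helper57.LH Pool.Agent.Helper57.ED Pool.Agent.Helper54.LG

namespace Pool.Agent.Helper49.UV

open Pool.Agent.Helper49.UG
open Pool.Agent.Helper69.UV
open Pool.Agent.Helper69.UG (pt pt_eq sc_re sc_im Mo_diff zeta_an disc_left)

lemma FF_an (δ T c : ℝ) {s : ℂ} (hs : s ≠ 1) : AnalyticAt ℂ (FF δ T c) s :=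
  (zeta_an hs).mul ((Mo_diff _ _).analyticAt s)

lemma circ_eq (δ T c y : ℝ) (k : ℕ) (t : ℝ) :
    circ δ T c y k t = Real.circleAverage (fun z => ‖FF δ T c z - 1‖) (sc (4 * 2 ^ k) (y / Real.log T) t)
      ((4 * 2 ^ k - 1 / 2) * (y / Real.log T)) := by
  unfold circ Real.circleAverage circleMap
  rw [smul_eq_mul]
  congr 1
  refine intervalIntegral.integral_congr fun φ _ => ?_
  rw [pt_eq, mul_div_assoc]

lemma disc_eq (δ T c y : ℝ) (k : ℕ) (t : ℝ) :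
    disc (FF δ T c) (4 * 2 ^ k) (y / Real.log T) t = circ δ T c y k t + 2 * cen δ T c y k t := by
  unfold disc cen
  rw [circ_eq, pt_eq]

lemma le_quarter {δ T x : ℝ} (hδ1 : δ ≤ 1 / 32) (hT : 3 ≤ T) (h : x ≤ δ * Real.log T / 8) : x ≤ Real.log T / 4 := by
  have hL : 0 < Real.log T := Real.log_pos (by linarith)
  nlinarith

lemma FF_disc {δ T y : ℝ} (hδ1 : δ ≤ 1 / 32) (c : ℝ) (hT : 3 ≤ T) (hy : 0 < y) (k : ℕ) (hk : 8 * 2 ^ k * y ≤ δ * Real.log T / 8) (t : ℝ) :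
    AnalyticOnNhd ℂ (FF δ T c) (closedBall (sc (4 * 2 ^ k) (y / Real.log T) t) ((4 * 2 ^ k - 1 / 2) * (y / Real.log T))) := by
  intro z hz
  apply FF_an
  rintro rfl
  have := (disc_left hT hy k (le_quarter hδ1 hT hk) t hz).1
  norm_num at this

/-- order of `ζ M` at a zero -/
lemma order_le {δ T c : ℝ} {ρ : ℂ} (hρ : xi ρ = 0) (h : analyticOrderAt (FF δ T c) ρ ≠ ⊤) :
    mx ρ ≤ (analyticOrderNatAt (FF δ T c) ρ : ℝ) := by
  obtain ⟨h0, h1, -⟩ := xi_eq_zero_iff.mp hρ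
  have hs1 : ρ ≠ 1 := by
    rintro rfl
    simp at h1
  have h2 : analyticOrderAt (FF δ T c) ρ = analyticOrderAt riemannZeta ρ + analyticOrderAt (Mo (NM δ T) (mm δ T c)) ρ :=
    analyticOrderAt_mul (zeta_an hs1) ((Mo_diff _ _).analyticAt ρ)
  have h3 : analyticOrderAt xi ρ ≤ analyticOrderAt (FF δ T c) ρ := by
    rw [h2, analyticOrderAt_xi h0 h1]
    exact le_self_add
  unfold mx analyticOrderNatAt
  exact_mod_cast ENat.toNat_le_toNat h3 h

/-- Z1: Jensen in one disc -/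
theorem cell {δ : ℝ} (_hδ : 0 < δ) (hδ1 : δ ≤ 1 / 32) {T c y : ℝ} (hT : 3 ≤ T) (hy : 0 < y) (k : ℕ) (hk : 8 * 2 ^ k * y ≤ δ * Real.log T / 8) (t : ℝ) (Z : Finset ZS)
    (hZ : ∀ ρ ∈ Z, y ≤ Real.log T * ((ρ : ℂ).re - 1 / 2) ∧ Real.log T * ((ρ : ℂ).re - 1 / 2) ≤ 2 * y ∧
      |(ρ : ℂ).im - t| ≤ y / Real.log T) (hc : cen δ T c y k t ≤ 1 / 2) :
    ∑ ρ ∈ Z, mx ρ ≤ 15 * 2 ^ k * (circ δ T c y k t + 2 * cen δ T c y k t) := by
  have hL : 0 < Real.log T := Real.log_pos (by linarith)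
  have hw : 0 < y / Real.log T := by positivity
  have h4 : (4:ℝ) ≤ 4 * 2 ^ k := by
    have : (1:ℝ) ≤ 2 ^ k := one_le_pow₀ (by norm_num)
    linarith
  have hF := FF_disc hδ1 c hT hy k hk t
  have hc' : ‖FF δ T c (sc (4 * 2 ^ k) (y / Real.log T) t) - 1‖ ≤ 1 / 2 := by
    rw [← pt_eq]
    exact hc
  have hmain := one_disc h4 hw hF hc' (Z.map ⟨Subtype.val, Subtype.val_injective⟩) (fun ρ => mx ρ) (by
    rw [Finset.sum_map]
    exact Finset.sum_nonneg fun _ _ => Nat.cast_nonneg _) (by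
    intro ρ hρ
    rw [Finset.mem_map] at hρ
    obtain ⟨ρ', h1, rfl⟩ := hρ
    obtain ⟨h2, h3, h5⟩ := hZ ρ' h1
    simp only [Function.Embedding.coeFn_mk]
    have e1 : y / Real.log T ≤ (ρ' : ℂ).re - 1 / 2 := by
      rw [div_le_iff₀ hL]
      linarith
    have e2 : (ρ' : ℂ).re - 1 / 2 ≤ 2 * (y / Real.log T) := by
      rw [← mul_div_assoc, le_div_iff₀ hL]
      linarith
    refine ⟨e1, by linarith, h5, ?_⟩
    refine order_le ρ'.2 ?_
    have hR : 0 < (4 * 2 ^ k - 1 / 2) * (y / Real.log T) := by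
      apply mul_pos _ hw
      linarith
    have hF' : AnalyticOnNhd ℂ (FF δ T c) (closedBall (sc (4 * 2 ^ k) (y / Real.log T) t) |(4 * 2 ^ k - 1 / 2) * (y / Real.log T)|) := by
      rwa [abs_of_pos hR]
    refine order_ne_top_of hF' ?_ ?_
    · intro h0
      rw [h0, zero_sub, norm_neg, norm_one] at hc'
      norm_num at hc'
    · rw [abs_of_pos hR, mem_closedBall, dist_eq_norm]
      have n1 : ‖(ρ' : ℂ) - sc (4 * 2 ^ k) (y / Real.log T) t‖ ^ 2 =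
          (((ρ' : ℂ).re - 1 / 2) - 4 * 2 ^ k * (y / Real.log T)) ^ 2 + ((ρ' : ℂ).im - t) ^ 2 := by
        rw [← Complex.normSq_eq_norm_sq, Complex.normSq_apply, Complex.sub_re, sc_re, Complex.sub_im, sc_im]
        ring
      set w := y / Real.log T with hwdef
      set a : ℝ := 4 * 2 ^ k with hadef
      have n2 : (((ρ' : ℂ).re - 1 / 2) - a * w) ^ 2 ≤ ((a - 1) * w) ^ 2 := by
        apply sq_le_sq'
        · nlinarith
        · nlinarith
      have n3 : ((ρ' : ℂ).im - t) ^ 2 ≤ w ^ 2 := by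
        rw [← sq_abs]
        exact pow_le_pow_left₀ (abs_nonneg _) h5 2
      have n4 : ‖(ρ' : ℂ) - sc a w t‖ ^ 2 ≤ ((a - 1 / 2) * w) ^ 2 := by
        rw [n1, mul_pow] 
        rw [mul_pow] at n2
        have : (a - 1) ^ 2 + 1 ≤ (a - 1 / 2) ^ 2 := by nlinarith
        nlinarith [sq_nonneg w]
      exact (pow_le_pow_iff_left₀ (norm_nonneg _) hR.le two_ne_zero).mp n4)
  rw [Finset.sum_map] at hmain
  rw [← disc_eq]
  refine hmain.trans (le_of_eq ?_)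
  ring

end Pool.Agent.Helper49.UV
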